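import Mathlib
import Pool.Agent.Helper11.Ro.Types
import Pool.Agent.Helper11.CanThm
import Pool.Agent.Helper11.Point
import Pool.Agent.Helper11.Zt.AlgMap
import Pool.Agent.Helper11.Zt.Span2

/-!
# Products of varieties spanned by words
-/

universe u v w t

open CategoryTheory Finset

namespace Pool.Agent.Helper34.CR

open Pool.Agent.Helper10 hiding IsAlgAut parityPart
open Pool.Agent.Helper11 Pool.Agent.Helper11.Ro
open SmProjVar Pool.Agent.Helper11.Obs

variable {k : Type u} [Field k] {K : Type v} [Field K] [CharZero K]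
  (W : WeilCohomology.{u, v, w} k K) {P : ℕ} {V : Fin P → SmProjVar k}
  {E : Subspaces W.toCohomologyData V}

/-- the empty word -/
private lemma cr_word_one (T : SmProjVar k) :
    IsWordIn W.toCohomologyData V E T (1 : W.H T) :=
  ⟨0, fun i => i.elim0, fun i => i.elim0, fun i => i.elim0, fun i => i.elim0, by
    rw [List.ofFn_zero, List.prod_nil]⟩

/-- words as products of lists of letters -/
private lemma cr_word_iff {T : SmProjVar k} {y : W.H T} :
    IsWordIn W.toCohomologyData V E T y ↔ ∃ l : List (W.H T), (∀ a ∈ l, ∃ (c : Fin P)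
      (f : T.toOver ⟶ (V c).toOver) (v : W.H (V c)), v ∈ E c ∧ a = W.pull f v) ∧ y = l.prod := by
  constructor
  · rintro ⟨b, c, f, v, hv, rfl⟩
    refine ⟨_, fun a ha => ?_, rfl⟩
    rw [List.mem_ofFn] at ha
    obtain ⟨i, rfl⟩ := ha
    exact ⟨c i, f i, v i, hv i, rfl⟩
  · rintro ⟨l, hl, rfl⟩
    choose c f v hv h using fun i : Fin l.length => hl (l.get i) (l.get_mem i)
    refine ⟨l.length, c, f, v, hv, ?_⟩
    have h1 : List.ofFn (fun i => W.pull (f i) (v i)) = l := by
      conv_rhs => rw [← List.ofFn_get l]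
      congr 1
      funext i
      exact (h i).symm
    rw [h1]

private lemma cr_pull_letter {T T' : SmProjVar k} (g : T.toOver ⟶ T'.toOver) {y : W.H T'}
    (hy : IsWordIn W.toCohomologyData V E T' y) :
    IsWordIn W.toCohomologyData V E T (W.pull g y) := by
  obtain ⟨b, c, f, v, hv, rfl⟩ := hy
  refine ⟨b, c, fun i => g ≫ f i, v, hv, ?_⟩
  rw [← W.pullA_apply, map_list_prod, List.map_ofFn]
  congr 2
  funext i
  exact (W.pull_comp g (f i) (v i)).symm

private lemma cr_word_mul {T : SmProjVar k} {x y : W.H T}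
    (hx : IsWordIn W.toCohomologyData V E T x) (hy : IsWordIn W.toCohomologyData V E T y) :
    IsWordIn W.toCohomologyData V E T (x * y) := by
  rw [cr_word_iff] at hx hy ⊢
  obtain ⟨l, hl, rfl⟩ := hx
  obtain ⟨l', hl', rfl⟩ := hy
  refine ⟨l ++ l', fun a ha => ?_, List.prod_append.symm⟩
  rcases List.mem_append.mp ha with h | h
  · exact hl a h
  · exact hl' a h

private lemma cr_exists_map {A B : SmProjVar k} {κ : (W.toSPre K).H (A.prod B)}
    (hκ : κ ∈ (W.toSPre K).alg (A.prod B)) :
    ∃ u : W.H A → W.H B, W.IsAlgebraicMap A B u ∧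
      ∀ x, Iso.op κ (Obs.one W K x) = Obs.one W K (u x) := by
  obtain ⟨c, rfl⟩ := Can.eq_one W _ κ
  have hc : c ∈ W.algClasses (A.prod B) := Obs.mem_of_one_mem_baseChange K hκ
  exact exists_map W K hc

private lemma cr_one_mul {A : SmProjVar k} (x y : W.H A) :
    Obs.one W K (x * y) = Obs.one W K x * Obs.one W K y := by
  have h1 : ((1 : K) ⊗ₜ[K] (x * y) : TensorProduct K K (W.H A)) =
      ((1 : K) ⊗ₜ[K] x) * ((1 : K) ⊗ₜ[K] y) := by
    rw [Algebra.TensorProduct.tmul_mul_tmul, mul_one]
  exact h1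

omit [CharZero K] in
private lemma cr_op_ext {S : SPre.{u, v, max v w, v} k K K} {T A T' B : SmProjVar k}
    {κ : S.H (T.prod A)} (hκ : κ ∈ S.alg _) {κ' : S.H (T'.prod B)} (hκ' : κ' ∈ S.alg _) :
    ∃ κ'' ∈ S.alg ((T.prod T').prod (A.prod B)), ∀ x x',
      Iso.op κ'' (S.ext T T' x x') = S.ext A B (Iso.op κ x) (Iso.op κ' x') := by
  refine ⟨S.pushF (lift (Iso.prodMap (fst T A) (fst T' B)) (Iso.prodMap (snd T A) (snd T' B)))
    (S.ext _ _ κ κ'), SPre.pushF_mem _ (S.mul_mem _ _ _ (S.pull_mem _ _ hκ)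
      (S.pull_mem _ _ hκ')), fun x x' => ?_⟩
  rw [Iso.op_apply, ← Iso.pushF_pull_mul, ← Iso.pushF_comp, SPre.pull_pull, lift_fst, lift_snd,
    Iso.pull_prodMap_ext, Iso.op_apply, Iso.op_apply, ← Iso.pushF_prodMap_ext]
  congr 1
  have h1 := S.ev_comm _ _ (S.pull (snd (T.prod A) (T'.prod B)) (S.pull (fst T' B) x'))
    (S.pull_ev (fst (T.prod A) (T'.prod B)) _ (S.alg_le_ev _ hκ))
  unfold SPre.ext
  rw [map_mul (S.pull _), map_mul (S.pull _), mul_assoc, ← mul_assoc (S.pull _ (S.pull _ x')),
    ← h1]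
  noncomm_ring

private lemma cr_ext_map {T A T' B : SmProjVar k} {u : W.H T → W.H A} {u' : W.H T' → W.H B}
    (hu : W.IsAlgebraicMap T A u) (hu' : W.IsAlgebraicMap T' B u') :
    ∃ v : W.H (T.prod T') → W.H (A.prod B), W.IsAlgebraicMap _ _ v ∧ ∀ x x',
      v (W.pull (fst T T') x * W.pull (snd T T') x') =
        W.pull (fst A B) (u x) * W.pull (snd A B) (u' x') := by
  obtain ⟨κ, hκ, h⟩ := (Zt.isAlgebraicMap_iff W).mp hu
  obtain ⟨κ', hκ', h'⟩ := (Zt.isAlgebraicMap_iff W).mp hu'
  obtain ⟨κ'', hκ'', h''⟩ := cr_op_ext hκ hκ'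
  obtain ⟨v, hv, hv'⟩ := cr_exists_map W hκ''
  refine ⟨v, hv, fun x x' => Zt.one_injective W _ ?_⟩
  have e1 : ∀ (A B : SmProjVar k) (a : W.H A) (b : W.H B),
      Obs.one W K (W.pull (fst A B) a * W.pull (snd A B) b) =
        (W.toSPre K).ext A B (Obs.one W K a) (Obs.one W K b) := by
    intro A B a b
    unfold SPre.ext
    rw [cr_one_mul, Obs.pull_one, Obs.pull_one]
  rw [← hv', e1, h'', h, h', ← e1]

/-- Products of varieties which are spanned by words are spanned by words. -/
theorem isSpanned_prod {A B : SmProjVar k}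
    (hA : IsSpanned W.toCohomologyData V E A) (hB : IsSpanned W.toCohomologyData V E B) :
    IsSpanned W.toCohomologyData V E (A.prod B) := by
  unfold IsSpanned at hA hB ⊢
  suffices hz : ∀ t, (LinearMap.mul' K _ ∘ₗ TensorProduct.map (W.pullA (fst A B)).toLinearMap
      (W.pullA (snd A B)).toLinearMap) t ∈ Submodule.span K {y | ∃ (T : SmProjVar k)
      (u : W.H T → W.H (A.prod B)) (x : W.H T), W.IsAlgebraicMap T (A.prod B) u ∧
        IsWordIn W.toCohomologyData V E T x ∧ y = u x} by
    rw [eq_top_iff]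
    intro z _
    obtain ⟨t, rfl⟩ := (W.kunneth A B (LinearMap.mul' K _ ∘ₗ TensorProduct.map
      (W.pullA (fst A B)).toLinearMap (W.pullA (snd A B)).toLinearMap) (fun a b => rfl)).2 z
    exact hz t
  intro t
  induction t using TensorProduct.induction_on with
  | zero => rw [map_zero]; exact Submodule.zero_mem _
  | add a b ha hb => rw [map_add]; exact Submodule.add_mem _ ha hb
  | tmul a b =>
    change W.pullA (fst A B) a * W.pullA (snd A B) b ∈ _
    have ha : a ∈ Submodule.span K {y | ∃ (T : SmProjVar k) (u : W.H T → W.H A) (x : W.H T),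
      W.IsAlgebraicMap T A u ∧ IsWordIn W.toCohomologyData V E T x ∧ y = u x} := by
      rw [hA]; trivial
    have hb : b ∈ Submodule.span K {y | ∃ (T : SmProjVar k) (u : W.H T → W.H B) (x : W.H T),
      W.IsAlgebraicMap T B u ∧ IsWordIn W.toCohomologyData V E T x ∧ y = u x} := by
      rw [hB]; trivial
    induction ha using Submodule.span_induction with
    | zero => rw [map_zero, zero_mul]; exact Submodule.zero_mem _
    | add y z _ _ hy hz => rw [map_add, add_mul]; exact Submodule.add_mem _ hy hz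
    | smul c y _ hy => rw [map_smul, smul_mul_assoc]; exact Submodule.smul_mem _ c hy
    | mem a ha =>
      induction hb using Submodule.span_induction with
      | zero => rw [map_zero, mul_zero]; exact Submodule.zero_mem _
      | add y z _ _ hy hz => rw [map_add, mul_add]; exact Submodule.add_mem _ hy hz
      | smul c y _ hy => rw [map_smul, mul_smul_comm]; exact Submodule.smul_mem _ c hy
      | mem b hb =>
        obtain ⟨T, u, x, hu, hx, rfl⟩ := ha
        obtain ⟨T', u', x', hu', hx', rfl⟩ := hb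
        obtain ⟨v, hv, hv'⟩ := cr_ext_map W hu hu'
        exact Submodule.subset_span ⟨T.prod T', v, _, hv,
          cr_word_mul W (cr_pull_letter W (fst T T') hx) (cr_pull_letter W (snd T T') hx'),
          (hv' x x').symm⟩

end Pool.Agent.Helper34.CR
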