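import Mathlib
import Pool.Agent.Helper34.GD.Final
import Pool.Agent.Helper11.GP.Final
import Pool.Agent.Helper34.CR.Words

/-!
# The powers of one variety
-/

universe u v w u' w' t

open CategoryTheory

namespace Pool.Agent.Helper34.CR

open Pool.Agent.Helper10 hiding IsAlgAut parityPart
open SmProjVar
open Pool.Agent.Helper11 Pool.Agent.Helper11.BD Pool.Agent.Helper11.Zt Pool.Agent.Helper34.GD
open Pool.Agent.Helper11.Obs (extProd prodVar prodFst prodProj)

section

variable {k : Type u} [Field k]

lemma toPt_unique {X : SmProjVar k} (f g : X.toOver ⟶ (pt k).toOver) : f = g := by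
  refine Over.OverMorphism.ext ?_
  have h1 : f.left ≫ 𝟙 _ = X.toOver.hom := Over.w f
  have h2 : g.left ≫ 𝟙 _ = X.toOver.hom := Over.w g
  rw [← Category.comp_id f.left, ← Category.comp_id g.left]
  exact h1.trans h2.symm

/-- the product with the point is a retract of the variety -/
lemma retract_pt_prod' (X : SmProjVar k) : Retract ((pt k).prod X) X :=
  ⟨snd _ _, SmProjVar.lift (toPt k X) (𝟙 _), by
    refine SmProjVar.hom_ext (toPt_unique _ _) ?_
    rw [Category.assoc, SmProjVar.lift_snd, Category.comp_id, Category.id_comp]⟩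

lemma retract_cart (X : SmProjVar k) (b : ℕ) : Retract (cart X (b + 1)) (X.selfProd b) := by
  induction b with
  | zero => exact retract_pt_prod' X
  | succ b ih => exact ih.prod (Retract.refl X)

lemma retract_selfProd (X : SmProjVar k) (b : ℕ) : Retract (X.selfProd b) (cart X (b + 1)) := by
  induction b with
  | zero => exact retract_pt_prod X
  | succ b ih => exact ih.prod (Retract.refl X)

end

section

variable {k : Type u} [Field k] {K : Type v} [Field K] [CharZero K]
  (W : WeilCohomology.{u, v, w} k K)

/-- D passes to retracts -/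
lemma standardD_retract {A B : SmProjVar k} (h : Retract A B) (hB : W.StandardD B) :
    W.StandardD A :=
  W.standardD_of_D K A ((W.d_of_standardD K hB).retract h)

lemma standardD_cart_of_selfProd {X : SmProjVar k} (h : ∀ n, W.StandardD (X.selfProd n)) (b : ℕ) :
    W.StandardD (cart X b) := by
  rcases b with _ | b
  · exact standardD_of_dim_eq_zero W _ rfl
  · exact standardD_retract W (retract_cart X b) (h b)

lemma standardD_selfProd_of_cart {X : SmProjVar k} (h : ∀ b, W.StandardD (cart X b)) (n : ℕ) :
    W.StandardD (X.selfProd n) :=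
  standardD_retract W (retract_selfProd X n) (h (n + 1))

/-- multiplication by a class of cycles is given by an algebraic correspondence -/
lemma isAlgebraicMap_mul {X : SmProjVar k} {a : W.H X} (ha : a ∈ W.algClasses X) :
    W.IsAlgebraicMap X X fun x => x * a := by
  refine (isAlgebraicMap_iff W).mpr ⟨(W.toSPre K).pushF (SmProjVar.lift (𝟙 X.toOver) (𝟙 X.toOver))
    (Obs.one W K a), SPre.pushF_mem _ (Obs.one_mem_alg W K ha), fun x => ?_⟩
  rw [Iso.op_apply, ← Iso.pushF_pull_mul, ← Iso.pushF_comp, SPre.pull_pull, SmProjVar.lift_fst,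
    SmProjVar.lift_snd, Iso.pushF_id, (W.toSPre K).pull_id, AlgHom.id_apply, ← Obs.one_mul]

/-- the powers of `X` are spanned by words if every class on `X` is the sum of a combination of
classes of cycles and of an element of the piece `E` -/
lemma isSpanned_selfProd {X : SmProjVar k} {E : Submodule K (W.H X)}
    (hX : ∀ y : W.H X, ∃ a ∈ W.algClasses X, ∃ x ∈ E, y = a + x) (n : ℕ) :
    Ro.IsSpanned W.toCohomologyData (P := 1) (fun _ => X) (fun _ => E) (X.selfProd n) := by
  have h1 : Ro.IsSpanned W.toCohomologyData (P := 1) (fun _ => X) (fun _ => E) X := by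
    unfold Ro.IsSpanned
    rw [eq_top_iff]
    intro y _
    obtain ⟨a, ha, x, hx, rfl⟩ := hX y
    refine Submodule.add_mem _ ?_ (Submodule.subset_span
      ⟨X, fun y => y, x, Zt.isAlgebraicMap_id' W _, ⟨1, fun _ => 0, fun _ => 𝟙 _, fun _ => x,
        fun _ => hx, ?_⟩, rfl⟩)
    · exact Submodule.subset_span ⟨X, fun y => y * a, 1, isAlgebraicMap_mul W ha,
        ⟨0, fun i => i.elim0, fun i => i.elim0, fun i => i.elim0, fun i => i.elim0, rfl⟩,
        (one_mul a).symm⟩
    · rw [List.ofFn_succ, List.ofFn_zero, List.prod_singleton]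
      exact (AlgHom.congr_fun (W.pullA_id X) x).symm
  induction n with
  | zero => exact h1
  | succ n ih => exact isSpanned_prod W ih h1

end

end Pool.Agent.Helper34.CR
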