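import Mathlib
import Pool.Agent.Helper34.CR.Pow

/-!
# One variety: simple Frobenius, and the special fibre
-/

universe u v w u' w' t

open CategoryTheory

namespace Pool.Agent.Helper34.CR

open Pool.Agent.Helper10 hiding IsAlgAut parityPart
open SmProjVar
open Pool.Agent.Helper11 Pool.Agent.Helper11.BD Pool.Agent.Helper11.Zt Pool.Agent.Helper34.GD
open Pool.Agent.Helper11.Obs (extProd prodVar prodFst prodProj)

theorem simpleFrobenius
    {k₀ : Type u} [Field k₀] {k : Type u} [Field k] {K : Type v} [Field K] [CharZero K]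
    {k' : Type u'} [Field k'] [Finite k']
    (W₀ : WeilCohomology.{u, v, w} k₀ K) (W : WeilCohomology.{u, v, w} k K)
    (W' : WeilCohomology.{u', v, w'} k' K)
    {X₀ : SmProjVar k₀} {X : SmProjVar k} {X' : SmProjVar k'}
    {φ : W₀.H X₀ → W.H X} {Γ : Type t} [Group Γ] {χ : Γ →* Kˣ} {ψ : Γ → W.H X → W.H X}
    (hφ : IsGaloisExtension W₀.toCohomologyData W.toCohomologyData (ratField K)
      (fun _ : Fin 1 => X₀) (fun _ => X) (fun _ => φ) χ fun g _ => ψ g)
    {φ' : W₀.H X₀ → W'.H X'}
    (hφ' : AreSpecializations W₀.toCohomologyData W'.toCohomologyData (fun _ : Fin 1 => X₀)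
      (fun _ => X') fun _ => φ')
    {E : Submodule K (W₀.H X₀)}
    (hE : Ro.IsPieceOver W₀.toCohomologyData (ratField K) X₀ E)
    (hmid : E ≤ W₀.gr X₀ X₀.dim)
    (hX : ∀ y, ∃ a ∈ W.algClasses X, ∃ x ∈ E, y = a + φ x)
    {R : Polynomial ℚ}
    (hR : IsCharpolyOn (W'.pull (frob X')) (Submodule.span K (φ' '' E)) (R.map (algebraMap ℚ K)))
    (hsq : Squarefree R)
    (habs : ∀ z : ℂ, Polynomial.aeval z R = 0 → ‖z‖ ^ 2 = (Nat.card k' : ℝ) ^ X₀.dim)
    (hself : ∀ p : Polynomial K, Irreducible p → p ∣ R.map (algebraMap ℚ K) →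
      Associated p (dualPoly ((Nat.card k' : K) ^ X₀.dim) p)) :
    ∀ m, W.StandardD (X.selfProd m) := by
  intro m
  have hspan : Submodule.span K (φ' '' E) = E.map (hφ'.lin 0) := by
    have h1 : (φ' '' (E : Set (W₀.H X₀))) = (E.map (hφ'.lin 0) : Set (W'.H X')) := by
      rw [Submodule.map_coe]
      rfl
    rw [h1, Submodule.span_eq]
  rw [hspan] at hR
  refine (galoisDescent W₀ W hφ (fun _ => E)).2 W' (fun _ => X') (fun _ => φ') hφ'
    (fun _ => hE) (fun _ => hmid) (fun _ => R) (fun c => ?_) (fun _ => hsq) (fun _ => habs)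
    (fun _ => hself) _ ?_
  · obtain rfl : c = 0 := Subsingleton.elim _ _
    exact hR
  · have h2 := isSpanned_selfProd W (X := X) (E := E.map (hφ.extension.lin 0))
      (fun y => by
        obtain ⟨a, ha, x, hx, rfl⟩ := hX y
        exact ⟨a, ha, _, Submodule.mem_map_of_mem hx, rfl⟩) m
    have h3 : (fun c : Fin 1 => E.map (hφ.extension.lin c)) =
        fun _ => E.map (hφ.extension.lin 0) := by
      funext c
      obtain rfl : c = 0 := Subsingleton.elim _ _
      rfl
    rw [h3]
    exact h2

/-- **From the special fibre to the generic fibre.** -/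
theorem specialFibre
    {k : Type u} [Field k] {K : Type v} [Field K] [CharZero K] (W : WeilCohomology.{u, v, w} k K)
    {k' : Type u'} [Field k'] (W' : WeilCohomology.{u', v, w'} k' K) (F : Subfield K)
    {X : SmProjVar k} {X' : SmProjVar k'} {φ : W.H X → W'.H X'}
    (hφ : AreSpecializations W.toCohomologyData W'.toCohomologyData (fun _ : Fin 1 => X)
      (fun _ => X') fun _ => φ)
    (hD : ∀ m, W'.StandardD (X'.selfProd m))
    {d : X.Z 1} (hd : IsPolarizedAt W.toCohomologyData W'.toCohomologyData d φ) :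
    (∀ m, W.StandardD (X.selfProd m)) ↔ LefschetzStandard W.toCohomologyData F X d := by
  have h1 := standardD_iff_of_pieces W W' (F := F) hφ
    (fun b c => standardD_cart_of_selfProd W' hD b) (E := fun _ => ⊤) (d := fun _ => d)
    fun _ => .inl ⟨rfl, hd⟩
  constructor
  · intro h
    exact lefschetzStandard_of_standardD W hd.1 fun b => standardD_cart_of_selfProd W h b
  · intro hB
    refine standardD_selfProd_of_cart W fun b => h1.mpr (fun _ _ _ => hB) _ ?_
    exact isSpanned_cart_of_top W (c := (0 : Fin 1)) rfl b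

end Pool.Agent.Helper34.CR
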